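import Pool.Agent.TH101.RG.Templ
import Pool.Agent.TH101.RG.CovZ

set_option autoImplicit false
set_option maxHeartbeats 4000000

/-! # Far-apart linear forms: the choice of the classes modulo the small primes (helper61)

An average over the reduced classes modulo the small primes leaves few of the forms. -/

namespace Pool.Agent.K7.H61.FF

open Finset Filter
open Pool.Agent.H378R2
open Pool.Agent.H312R2.RG (BVat)
open Pool.Agent.TH101.RG

open scoped Classical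

/-- `|z| / φ(|z|)` -/
noncomputable def wI (z : ℤ) : ℝ := (z.natAbs : ℝ) / (z.natAbs.totient : ℝ)

theorem wI_nonneg (z : ℤ) : 0 ≤ wI z := div_nonneg (Nat.cast_nonneg _) (Nat.cast_nonneg _)

theorem wI_mono {a b : ℤ} (hb : b ≠ 0) (h : a ∣ b) : wI a ≤ wI b := by
  have ha : a ≠ 0 := by
    rintro rfl
    exact hb (zero_dvd_iff.1 h)
  unfold wI
  rw [← prod_inv_primeFactors _ (Int.natAbs_ne_zero.2 ha), ← prod_inv_primeFactors _ (Int.natAbs_ne_zero.2 hb)]
  apply prod_mono_real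
  · exact Nat.primeFactors_mono (Int.natAbs_dvd_natAbs.2 h) (Int.natAbs_ne_zero.2 hb)
  · intro p hp
    exact inv_ge_one (Nat.prime_of_mem_primeFactors hp)

theorem wI_one_le {a : ℤ} (ha : a ≠ 0) : 1 ≤ wI a := by
  have := wI_mono ha (one_dvd a)
  simpa [wI] using this

theorem wI_mul_le {a b : ℤ} (ha : a ≠ 0) (hb : b ≠ 0) : wI (a * b) ≤ wI a * wI b := by
  unfold wI
  rw [← prod_inv_primeFactors _ (Int.natAbs_ne_zero.2 ha), ← prod_inv_primeFactors _ (Int.natAbs_ne_zero.2 hb),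
    ← prod_inv_primeFactors _ (Int.natAbs_ne_zero.2 (mul_ne_zero ha hb)), Int.natAbs_mul,
    Nat.primeFactors_mul (Int.natAbs_ne_zero.2 ha) (Int.natAbs_ne_zero.2 hb)]
  have h1 : ∀ i ∈ a.natAbs.primeFactors, (1 : ℝ) ≤ (1 - 1 / (i : ℝ))⁻¹ :=
    fun p hp => inv_ge_one (Nat.prime_of_mem_primeFactors hp)
  have h2 : ∀ i ∈ b.natAbs.primeFactors, (1 : ℝ) ≤ (1 - 1 / (i : ℝ))⁻¹ :=
    fun p hp => inv_ge_one (Nat.prime_of_mem_primeFactors hp)
  rw [← prod_union_inter]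
  have h3 := one_le_prod_real (a.natAbs.primeFactors ∩ b.natAbs.primeFactors)
    (fun p : ℕ => (1 - 1 / (p : ℝ))⁻¹) fun i hi => h1 i (mem_inter.1 hi).1
  have h4 := one_le_prod_real (a.natAbs.primeFactors ∪ b.natAbs.primeFactors)
    (fun p : ℕ => (1 - 1 / (p : ℝ))⁻¹) fun i hi => by
      rcases mem_union.1 hi with h5 | h5
      · exact h1 i h5
      · exact h2 i h5
  nlinarith

/-- one prime: a class which leaves few of the forms -/
theorem avg_one {ι : Type} (p : ℕ) (hp : p.Prime) (α β : ι → ℤ) (T : Finset ι) (W : ι → ℝ) (hW : ∀ k, 0 ≤ W k) :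
    ∃ ρ : ℕ, ¬ p ∣ ρ ∧ ∑ k ∈ T.filter (fun k => ¬ (p : ℤ) ∣ α k * ρ + β k), W k ≤
      ∑ k ∈ T, (if (p : ℤ) ∣ α k ∨ (p : ℤ) ∣ β k then 1 else 1 - 1 / ((p : ℝ) - 1)) * W k := by
  have hp1 : 1 < p := hp.one_lt
  have hpr : (0 : ℝ) < (p : ℝ) - 1 := by
    have : (1 : ℝ) < p := by exact_mod_cast hp1
    linarith
  have hcard : (Ioo 0 p).card = p - 1 := by simp
  have hne : (Ioo 0 p).Nonempty := by
    rw [← card_pos, hcard]
    omega
  by_contra hcon
  push Not at hcon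
  have hnd : ∀ ρ ∈ Ioo 0 p, ¬ p ∣ ρ := by
    intro ρ hρ hd
    rw [mem_Ioo] at hρ
    exact absurd (Nat.le_of_dvd hρ.1 hd) (by omega)
  set R : ℝ := ∑ k ∈ T, (if (p : ℤ) ∣ α k ∨ (p : ℤ) ∣ β k then 1 else 1 - 1 / ((p : ℝ) - 1)) * W k with hR
  have h1 : ∑ ρ ∈ Ioo 0 p, R < ∑ ρ ∈ Ioo 0 p, ∑ k ∈ T.filter (fun k => ¬ (p : ℤ) ∣ α k * ρ + β k), W k :=
    sum_lt_sum_of_nonempty hne fun ρ hρ => hcon ρ (hnd ρ hρ)
  rw [sum_const, hcard, nsmul_eq_mul] at h1
  have h2 : ∑ ρ ∈ Ioo 0 p, ∑ k ∈ T.filter (fun k => ¬ (p : ℤ) ∣ α k * ρ + β k), W k =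
      ∑ k ∈ T, (((Ioo 0 p).filter (fun ρ : ℕ => ¬ (p : ℤ) ∣ α k * ρ + β k)).card : ℝ) * W k := by
    simp_rw [sum_filter]
    rw [sum_comm]
    apply sum_congr rfl
    intro k _
    rw [← sum_filter, sum_const, nsmul_eq_mul]
  have h3 : ∑ k ∈ T, (((Ioo 0 p).filter (fun ρ : ℕ => ¬ (p : ℤ) ∣ α k * ρ + β k)).card : ℝ) * W k ≤
      ((p - 1 : ℕ) : ℝ) * R := by
    rw [hR, mul_sum]
    apply sum_le_sum
    intro k _
    rw [← mul_assoc]
    apply mul_le_mul_of_nonneg_right _ (hW k)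
    have hpc : ((p - 1 : ℕ) : ℝ) = (p : ℝ) - 1 := by
      rw [Nat.cast_sub hp1.le, Nat.cast_one]
    split_ifs with h
    · rw [mul_one, ← hcard]
      exact_mod_cast card_filter_le _ _
    · push Not at h
      obtain ⟨ρ0, hρ0⟩ := solve p hp (α k) (β k) h.1
      have hmod : (p : ℤ) ∣ α k * ((ρ0 % p : ℕ) : ℤ) + β k := by
        have e1 : α k * ((ρ0 % p : ℕ) : ℤ) + β k = (α k * ρ0 + β k) - α k * ((ρ0 : ℤ) - ((ρ0 % p : ℕ) : ℤ)) := by
          ring
        rw [e1]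
        apply dvd_sub hρ0
        apply Dvd.dvd.mul_left
        rw [Int.natCast_mod]
        exact Int.dvd_self_sub_emod
      have hmem : ρ0 % p ∈ Ioo 0 p := by
        rw [mem_Ioo]
        refine ⟨Nat.pos_of_ne_zero fun h0 => h.2 ?_, Nat.mod_lt _ hp.pos⟩
        rw [h0] at hmod
        simpa using hmod
      have h4 : (Ioo 0 p).filter (fun ρ : ℕ => ¬ (p : ℤ) ∣ α k * ρ + β k) ⊆ (Ioo 0 p).erase (ρ0 % p) := by
        intro ρ hρ
        rw [mem_filter] at hρ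
        rw [mem_erase]
        refine ⟨?_, hρ.1⟩
        rintro rfl
        exact hρ.2 hmod
      have h5 := card_le_card h4
      rw [card_erase_of_mem hmem, hcard] at h5
      have h6 : (((Ioo 0 p).filter (fun ρ : ℕ => ¬ (p : ℤ) ∣ α k * ρ + β k)).card : ℝ) ≤ ((p - 1 - 1 : ℕ) : ℝ) := by
        exact_mod_cast h5
      refine h6.trans (le_of_eq ?_)
      have h7 : ((p - 1 - 1 : ℕ) : ℝ) = (p : ℝ) - 1 - 1 := by
        rw [Nat.cast_sub (by omega), hpc, Nat.cast_one]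
      rw [h7, hpc, mul_sub, mul_one, mul_one_div, div_self hpr.ne']
  rw [h2] at h1
  linarith

/-- all primes -/
theorem avg_classes {ι : Type} (g : ℕ) (u : ℕ → ℕ) (α β : ι → ℤ) (P : Finset ℕ) (hP : ∀ p ∈ P, p.Prime)
    (hu : ∀ p ∈ P, ¬ p ∣ u p) : ∀ T : Finset ι, ∃ ρ : ℕ → ℕ,
    (∀ p ∈ P, ¬ p ∣ ρ p ∧ (p ∣ g → ρ p = u p)) ∧
    ((T.filter (fun k => ∀ p ∈ P, ¬ p ∣ g → ¬ (p : ℤ) ∣ α k * ρ p + β k)).card : ℝ) ≤
      ∑ k ∈ T, ∏ p ∈ P, (if p ∣ g ∨ (p : ℤ) ∣ α k ∨ (p : ℤ) ∣ β k then (1 : ℝ) else 1 - 1 / ((p : ℝ) - 1)) := by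
  have hf0 : ∀ p : ℕ, p.Prime → ∀ k : ι,
      0 ≤ (if p ∣ g ∨ (p : ℤ) ∣ α k ∨ (p : ℤ) ∣ β k then (1 : ℝ) else 1 - 1 / ((p : ℝ) - 1)) := by
    intro p hp k
    split_ifs
    · exact zero_le_one
    · have h2 : (2 : ℝ) ≤ p := by exact_mod_cast hp.two_le
      have : 1 / ((p : ℝ) - 1) ≤ 1 := by
        rw [div_le_one (by linarith)]
        linarith
      linarith
  induction P using Finset.induction_on with
  | empty =>
    intro T
    refine ⟨fun _ => 0, by simp, ?_⟩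
    simp
  | insert q P hq ih =>
    intro T
    have hqp : q.Prime := hP q (mem_insert_self _ _)
    have hP' : ∀ p ∈ P, p.Prime := fun p hp => hP p (mem_insert_of_mem hp)
    have ih' := ih hP' (fun p hp => hu p (mem_insert_of_mem hp))
    set W : ι → ℝ := fun k => ∏ p ∈ P, (if p ∣ g ∨ (p : ℤ) ∣ α k ∨ (p : ℤ) ∣ β k then (1 : ℝ)
      else 1 - 1 / ((p : ℝ) - 1)) with hW
    have hW0 : ∀ k, 0 ≤ W k := fun k => prod_nonneg fun p hp => hf0 p (hP' p hp) k
    obtain ⟨ρq, hρ1, hρ2, hρ3⟩ : ∃ ρq : ℕ, ¬ q ∣ ρq ∧ (q ∣ g → ρq = u q) ∧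
        ∑ k ∈ T.filter (fun k => ¬ q ∣ g → ¬ (q : ℤ) ∣ α k * ρq + β k), W k ≤
        ∑ k ∈ T, (if q ∣ g ∨ (q : ℤ) ∣ α k ∨ (q : ℤ) ∣ β k then 1 else 1 - 1 / ((q : ℝ) - 1)) * W k := by
      by_cases hqg : q ∣ g
      · refine ⟨u q, hu q (mem_insert_self _ _), fun _ => rfl, ?_⟩
        simp only [hqg, not_true_eq_false, false_imp_iff, filter_true, true_or, if_true, one_mul]
        exact le_rfl
      · obtain ⟨ρ, h1, h2⟩ := avg_one q hqp α β T W hW0
        refine ⟨ρ, h1, fun h => absurd h hqg, ?_⟩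
        simp only [hqg, not_false_eq_true, true_imp_iff, false_or]
        exact h2
    obtain ⟨ρ, h1, h2⟩ := ih' (T.filter (fun k => ¬ q ∣ g → ¬ (q : ℤ) ∣ α k * ρq + β k))
    refine ⟨fun p => if p = q then ρq else ρ p, ?_, ?_⟩
    · intro p hp
      by_cases hpq : p = q
      · subst hpq
        simp only [if_true]
        exact ⟨hρ1, hρ2⟩
      · simp only [if_neg hpq]
        rw [mem_insert] at hp
        exact h1 p (hp.resolve_left hpq)
    · have e1 : T.filter (fun k => ∀ p ∈ insert q P, ¬ p ∣ g →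
          ¬ (p : ℤ) ∣ α k * ((if p = q then ρq else ρ p : ℕ) : ℤ) + β k) =
          (T.filter (fun k => ¬ q ∣ g → ¬ (q : ℤ) ∣ α k * ρq + β k)).filter
            (fun k => ∀ p ∈ P, ¬ p ∣ g → ¬ (p : ℤ) ∣ α k * ρ p + β k) := by
        rw [filter_filter]
        apply filter_congr
        intro k _
        constructor
        · intro h
          refine ⟨?_, ?_⟩
          · have := h q (mem_insert_self _ _)
            simpa using this
          · intro p hp hpg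
            have h3 := h p (mem_insert_of_mem hp) hpg
            have hpq : p ≠ q := by
              rintro rfl
              exact hq hp
            simpa only [if_neg hpq] using h3
        · rintro ⟨h3, h4⟩ p hp hpg
          rw [mem_insert] at hp
          by_cases hpq : p = q
          · subst hpq
            simpa using h3 hpg
          · simp only [if_neg hpq]
            exact h4 p (hp.resolve_left hpq) hpg
      rw [e1]
      refine h2.trans (hρ3.trans (le_of_eq ?_))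
      apply sum_congr rfl
      intro k _
      rw [prod_insert hq]

/-- the template of `TH101.RG.templ1` with the forms indexed by an arbitrary type -/
theorem templI (D : ℕ) : ∃ (A : ℕ) (c₄ : ℝ), 0 < c₄ ∧ ∀ Z : ℕ, ∀ᶠ X : ℝ in atTop,
    ∀ (ps : ℕ) (S : Finset ℕ), GoodP Z ps → BVat A X (WW X S ps) ps →
    ∀ (ι : Type) (U : Finset ι), (U.card : ℝ) ≤ c₄ * Real.log X → ∀ (α β : ι → ℤ),
    (∀ k ∈ U, α k ≠ 0 ∧ β k ≠ 0) → (∀ k ∈ U, |(α k : ℝ)| ≤ X ^ D ∧ |(β k : ℝ)| ≤ X ^ D) →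
    (∀ k ∈ U, ∀ l ∈ U, k ≠ l → α k * β l ≠ α l * β k) → ∀ g : ℕ, g ≠ 0 → (g : ℝ) ≤ X ^ D →
    ∀ r : ℕ, r.Coprime (WW X S ps) → ∀ bad : Finset ℕ, (bad.card : ℝ) ≤ X ^ (9 / 10 : ℝ) →
    ∃ p : ℕ, p.Prime ∧ X < p ∧ (p : ℝ) ≤ 3 * X ∧ p ∉ bad ∧ p ≡ r [MOD WW X S ps] ∧
      ∀ k ∈ U, ∃ q : ℕ, q.Prime ∧ (q : ℝ) ≤ X ^ (1 / 1000 : ℝ) ∧ ¬ q ∣ g ∧ (q : ℤ) ∣ α k * p + β k := by
  obtain ⟨A, c₄, hc₄, h⟩ := templ1 D
  refine ⟨A, c₄, hc₄, fun Z => ?_⟩
  filter_upwards [h Z, Real.tendsto_log_atTop.eventually_ge_atTop (1 / c₄), eventually_ge_atTop 1] with X hX hL hX1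
  intro ps S hps hBV ι U hUc α β hne hle hdet g hg0 hgD r hr bad hbad
  set n := U.card with hn
  set e := U.equivFin with he
  set α' : ℕ → ℤ := fun k => if hk : k < n then α (e.symm ⟨k, hk⟩ : ↥U) else 1 with hα'
  set β' : ℕ → ℤ := fun k => if hk : k < n then β (e.symm ⟨k, hk⟩ : ↥U) else 1 with hβ'
  have hmax : ∀ k ∈ range (max n 1), n ≠ 0 → k < n := by
    intro k hk hn0
    rw [mem_range] at hk
    omega
  have hXD : 1 ≤ X ^ D := one_le_pow₀ hX1
  obtain ⟨p, hp, hXp, hp3, hpb, hpr, hall⟩ := hX ps S hps hBV (range (max n 1)) ⟨0, by simp⟩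
    (by
      rw [card_range]
      rw [div_le_iff₀ hc₄, mul_comm] at hL
      rcases le_or_gt n 1 with h1 | h1
      · rw [max_eq_right h1]
        push_cast
        exact hL
      · rw [max_eq_left h1.le]
        exact hUc) α' β'
    (by
      intro k hk
      simp only [hα', hβ']
      split_ifs with h1
      · exact hne _ (e.symm ⟨k, h1⟩).2
      · exact ⟨one_ne_zero, one_ne_zero⟩)
    (by
      intro k hk
      simp only [hα', hβ']
      split_ifs with h1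
      · exact hle _ (e.symm ⟨k, h1⟩).2
      · simpa using hXD)
    (by
      intro k hk l hl hkl
      rcases Nat.eq_zero_or_pos n with h0 | h0
      · rw [h0] at hk hl
        simp only [Nat.zero_le, sup_of_le_right, range_one, mem_singleton] at hk hl
        exact absurd (hk.trans hl.symm) hkl
      · have hk' := hmax k hk (by omega)
        have hl' := hmax l hl (by omega)
        simp only [hα', hβ', dif_pos hk', dif_pos hl']
        apply hdet _ (e.symm ⟨k, hk'⟩).2 _ (e.symm ⟨l, hl'⟩).2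
        intro h1
        have h2 := e.symm.injective (Subtype.ext h1)
        exact hkl (by simpa using h2))
    g hg0 hgD r hr bad hbad
  refine ⟨p, hp, hXp, hp3, hpb, hpr, fun k hk => ?_⟩
  have hlt : ((e ⟨k, hk⟩ : Fin n) : ℕ) < n := (e ⟨k, hk⟩).2
  have hk2 := hall (e ⟨k, hk⟩ : Fin n) (by rw [mem_range]; omega)
  simp only [hα', hβ', dif_pos hlt] at hk2
  simpa using hk2

end Pool.Agent.K7.H61.FF
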