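import Pool.Agent.K7.H61.FF.Cls
import Pool.Agent.TH101.RG.OneZ
import Pool.Agent.H318R2.Cr.Prod

set_option autoImplicit false
set_option maxHeartbeats 4000000

/-! # Far-apart linear forms which are composite at the same primes (helper61) -/

namespace Pool.Agent.K7.H61.FF

open Finset Filter
open Pool.Agent.H378R2
open Pool.Agent.H312R2.RG (BVat)
open Pool.Agent.TH101.RG
open Pool.Agent.H318R2.Cr (Pz V one_sub_inv_pos)

open scoped Classical

/-- the product over the small primes of the big modulus -/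
theorem prod_small (d : ℕ) (hd : 0 < d) : ∃ C : ℝ, 0 < C ∧ ∀ᶠ X : ℝ in atTop, ∀ (ps : ℕ) (S : Finset ℕ),
    GoodP 2 ps → GoodS X S → ∀ z : ℤ, z ≠ 0 →
    ∏ p ∈ PW X S ps, (if (p : ℤ) ∣ (d : ℤ) * z then (1 : ℝ) else 1 - 1 / ((p : ℝ) - 1)) ≤
      C / Real.log (Real.log X) * wI z := by
  obtain ⟨c₁, c₂, hc₁, hc₁₂, hV⟩ := Pool.Agent.H318R2.Cr.cz_bounds
  have hc₂ : 0 < c₂ := hc₁.trans_le hc₁₂
  have hd1 : (0 : ℝ) < d := by exact_mod_cast hd
  refine ⟨2 * c₂ * Real.exp (2 * 1) * d, by positivity, ?_⟩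
  have t1 := Real.tendsto_log_atTop
  have t2 : Tendsto (fun y : ℝ => Real.log (Real.log y)) atTop atTop := t1.comp t1
  filter_upwards [t1.eventually_ge_atTop 10000000, t2.eventually_ge_atTop 10] with X hL hLL
  intro ps S hps hS z hz
  set L := Real.log X with hLd
  set N : ℕ := yy X with hN
  have hN0 : (N : ℝ) ≤ L / 1000 := Nat.floor_le (by positivity)
  have hN1 : L / 1000 < N + 1 := Nat.lt_floor_add_one _
  have hN2 : 2 ≤ N := by
    have : (2 : ℝ) ≤ L / 1000 - 1 := by linarith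
    have h2 : (2 : ℝ) < N + 1 := by linarith
    have h3 : 2 < N + 1 := by exact_mod_cast h2
    omega
  have hNr : (2 : ℝ) ≤ N := by exact_mod_cast hN2
  have hlogN : Real.log L / 2 ≤ Real.log N := by
    have h1 : L ≤ (N : ℝ) ^ 2 := by
      have h2 : L / 2000 ≤ N := by linarith
      have h3 : (L / 2000) ^ 2 ≤ (N : ℝ) ^ 2 := pow_le_pow_left₀ (by positivity) h2 2
      refine le_trans ?_ h3
      rw [div_pow, le_div_iff₀ (by norm_num)]
      have h4 : 2000 ^ 2 ≤ L * 4 := by linarith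
      nlinarith
    have h2 := Real.log_le_log (by linarith) h1
    rw [Real.log_pow] at h2
    push_cast at h2
    linarith
  have hlL : 0 < Real.log L := by linarith
  have hlN : 0 < Real.log N := by linarith
  -- from `p - 1` to `p`
  have h1 : ∏ p ∈ PW X S ps, (if (p : ℤ) ∣ (d : ℤ) * z then (1 : ℝ) else 1 - 1 / ((p : ℝ) - 1)) ≤
      ∏ p ∈ PW X S ps, (if ∀ j : Fin 1, ¬ (p : ℤ) ∣ (d : ℤ) * z - (fun _ => (0 : ℤ)) j then 1 - 1 / (p : ℝ) else 1) := by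
    apply Finset.prod_le_prod
    · intro p hp
      have hp2 : (2 : ℝ) ≤ p := by exact_mod_cast (mem_PW.1 hp).2.1.two_le
      split_ifs
      · exact zero_le_one
      · have : 1 / ((p : ℝ) - 1) ≤ 1 := by
          rw [div_le_one (by linarith)]
          linarith
        linarith
    · intro p hp
      have hp2 : (2 : ℝ) ≤ p := by exact_mod_cast (mem_PW.1 hp).2.1.two_le
      by_cases h : (p : ℤ) ∣ (d : ℤ) * z
      · rw [if_pos h, if_neg]
        push Not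
        exact ⟨0, by simpa using h⟩
      · rw [if_neg h, if_pos (by intro j; simpa using h)]
        have : 1 / (p : ℝ) ≤ 1 / ((p : ℝ) - 1) := one_div_le_one_div_of_le (by linarith) (by linarith)
        linarith
  have hPS : PW X S ps ⊆ Pz N := by
    intro p hp
    have := mem_PW.1 hp
    rw [Pool.Agent.H318R2.Cr.mem_Pz]
    exact ⟨this.2.1, this.1⟩
  have hSm : ∀ p ∈ Pz N, p.Prime := fun p hp => (Pool.Agent.H318R2.Cr.mem_Pz.1 hp).1
  have hC : ∑ p ∈ Pz N \ PW X S ps, (1 : ℝ) / p ≤ 1 := by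
    have h2 : Pz N \ PW X S ps ⊆ S ∪ ({ps} : Finset ℕ).filter Nat.Prime := by
      intro p hp
      rw [Finset.mem_sdiff, Pool.Agent.H318R2.Cr.mem_Pz, mem_PW] at hp
      obtain ⟨⟨hpp, hpN⟩, hn⟩ := hp
      rw [mem_union, mem_filter, mem_singleton]
      by_cases hpS : p ∈ S
      · exact Or.inl hpS
      · right
        refine ⟨?_, hpp⟩
        by_contra hne
        exact hn ⟨hpN, hpp, hpS, hne⟩
    refine (sum_le_sum_of_subset_of_nonneg h2 fun p _ _ => by positivity).trans ?_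
    refine (sum_union_le' (fun p : ℕ => (1 : ℝ) / p) (fun p => by positivity)).trans ?_
    have h3 := hS.2
    have h4 : 6 / (Real.log (Real.log X)) ^ 2 ≤ 1 / 2 := by
      rw [div_le_div_iff₀ (by positivity) (by norm_num)]
      nlinarith
    have h5 : ∑ p ∈ ({ps} : Finset ℕ).filter Nat.Prime, (1 : ℝ) / p ≤ 1 / 2 := by
      rw [filter_singleton]
      split_ifs with h
      · rw [sum_singleton]
        have : (2 : ℝ) ≤ ps := by exact_mod_cast h.two_le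
        exact one_div_le_one_div_of_le (by norm_num) this
      · simp
    linarith
  have hdz : (d : ℤ) * z ≠ 0 := mul_ne_zero (by exact_mod_cast hd.ne') hz
  have h2 := prodZ 1 (fun _ => (0 : ℤ)) (PW X S ps) (Pz N) hPS hSm 1 hC ((d : ℤ) * z) (fun _ => hdz)
  refine h1.trans (h2.trans ?_)
  have h3 : ∏ j : Fin 1, ((((d : ℤ) * z - (fun _ => (0 : ℤ)) j).natAbs : ℝ) /
      ((((d : ℤ) * z - (fun _ => (0 : ℤ)) j).natAbs.totient : ℕ) : ℝ)) ≤ d * wI z := by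
    simp only [univ_unique, Fin.default_eq_zero, Fin.isValue, sub_zero, prod_const, card_singleton, pow_one]
    have h4 : wI ((d : ℤ) * z) ≤ wI d * wI z := wI_mul_le (by exact_mod_cast hd.ne') hz
    refine h4.trans ?_
    apply mul_le_mul_of_nonneg_right _ (wI_nonneg z)
    unfold wI
    rw [Int.natAbs_natCast]
    apply div_le_self hd1.le
    exact_mod_cast Nat.totient_pos.2 hd
  have h4 : ∏ p ∈ Pz N, (1 - 1 / (p : ℝ)) ≤ 2 * c₂ / Real.log L := by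
    have h5 := (hV N hN2).2
    unfold V at h5
    rw [← le_div_iff₀ hlN] at h5
    refine h5.trans ?_
    rw [div_le_div_iff₀ hlN hlL]
    have h6 := mul_le_mul_of_nonneg_left hlogN hc₂.le
    linarith
  have h5 : 0 ≤ ∏ p ∈ Pz N, (1 - 1 / (p : ℝ)) := prod_nonneg fun p hp => (one_sub_inv_pos (hSm p hp)).le
  calc (∏ p ∈ Pz N, (1 - 1 / (p : ℝ))) * Real.exp (2 * 1) *
        ∏ j : Fin 1, ((((d : ℤ) * z - (fun _ => (0 : ℤ)) j).natAbs : ℝ) /
          ((((d : ℤ) * z - (fun _ => (0 : ℤ)) j).natAbs.totient : ℕ) : ℝ))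
      ≤ (2 * c₂ / Real.log L) * Real.exp (2 * 1) * (d * wI z) := by
        apply mul_le_mul _ h3 _ (by positivity)
        · exact mul_le_mul_of_nonneg_right h4 (Real.exp_pos _).le
        · exact prod_nonneg fun _ _ => div_nonneg (Nat.cast_nonneg _) (Nat.cast_nonneg _)
    _ = _ := by ring

/-- pairwise non-proportional forms -/
theorem far_prim (D d : ℕ) (hd : Squarefree d) : ∃ c : ℝ, 0 < c ∧ ∀ᶠ X : ℝ in atTop,
    ∀ g : ℕ, g ≠ 0 → (g : ℝ) ≤ X ^ D → ∀ h : ℕ, h.Coprime d → ∀ 𝓛 : Finset (ℤ × ℤ),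
    (∀ l ∈ 𝓛, l.1 ≠ 0 ∧ l.2 ≠ 0) → (∀ l ∈ 𝓛, |(l.1 : ℝ)| ≤ X ^ D ∧ |(l.2 : ℝ)| ≤ X ^ D) →
    (∀ k ∈ 𝓛, ∀ l ∈ 𝓛, k ≠ l → k.1 * l.2 ≠ l.1 * k.2) →
    ∑ l ∈ 𝓛, wI (g * (l.1 * l.2)) ≤ c * (Real.log X * Real.log (Real.log X)) →
    ∀ bad : Finset ℕ, (bad.card : ℝ) ≤ X ^ (9 / 10 : ℝ) →
    ∃ p : ℕ, p.Prime ∧ X < p ∧ (p : ℝ) ≤ 3 * X ∧ p ∉ bad ∧ p ≡ h [MOD d] ∧
      ∀ l ∈ 𝓛, ∃ q : ℕ, q.Prime ∧ (q : ℝ) ≤ X ^ (1 / 1000 : ℝ) ∧ ¬ q ∣ g ∧ (q : ℤ) ∣ l.1 * p + l.2 := by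
  obtain ⟨Abv, c₄, hc₄, ht⟩ := templI (D + 1)
  have hd0 : 0 < d := Nat.pos_of_ne_zero hd.ne_zero
  obtain ⟨C, hC, hprod⟩ := prod_small d hd0
  refine ⟨c₄ / C, by positivity, ?_⟩
  obtain ⟨X1, hbv⟩ := bvrel_holds Abv (max 2 d)
  have t1 := Real.tendsto_log_atTop
  have t2 : Tendsto (fun y : ℝ => Real.log (Real.log y)) atTop atTop := t1.comp t1
  filter_upwards [ht (max 2 d), hprod, eventually_ge_atTop X1, eventually_ge_atTop (4 + d : ℝ),
    t1.eventually_ge_atTop 1, t1.eventually_ge_atTop (1000 * (max 2 d : ℕ)),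
    t2.eventually_ge_atTop ((max 2 d : ℕ) + 1)] with X htX hprodX hX1 hX4 hL1 hLd hL2d
  intro g hg0 hgD h hhd 𝓛 hne hle hdet hw bad hbad
  obtain ⟨ps, S, hps, hS, hBV⟩ := hbv X hX1
  have hdr : (1 : ℝ) ≤ d := by exact_mod_cast hd0
  have hX0 : 0 < X := by linarith
  have hlL : 0 < Real.log (Real.log X) := by
    have : (0 : ℝ) ≤ (max 2 d : ℕ) := Nat.cast_nonneg _
    linarith
  set u : ℕ → ℕ := fun p => if p ∣ d then h else 1 with hu
  have hup : ∀ p, p.Prime → ¬ p ∣ u p := by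
    intro p hp
    simp only [hu]
    split_ifs with hpd
    · intro hph
      exact hp.one_lt.ne' (Nat.dvd_one.1 (hhd ▸ Nat.dvd_gcd hph hpd))
    · intro h1
      exact hp.one_lt.ne' (Nat.dvd_one.1 h1)
  obtain ⟨ρ, hρ, hcard⟩ := avg_classes (g * d) u (fun l : ℤ × ℤ => l.1) (fun l : ℤ × ℤ => l.2) (PW X S ps)
    (fun p hp => (mem_PW.1 hp).2.1) (fun p hp => hup p (mem_PW.1 hp).2.1) 𝓛
  set U := 𝓛.filter (fun k => ∀ p ∈ PW X S ps, ¬ p ∣ g * d → ¬ (p : ℤ) ∣ k.1 * ρ p + k.2) with hU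
  have hUc : (U.card : ℝ) ≤ c₄ * Real.log X := by
    refine hcard.trans ?_
    have h1 : ∀ l ∈ 𝓛, ∏ p ∈ PW X S ps, (if p ∣ g * d ∨ (p : ℤ) ∣ l.1 ∨ (p : ℤ) ∣ l.2 then (1 : ℝ)
        else 1 - 1 / ((p : ℝ) - 1)) ≤ C / Real.log (Real.log X) * wI (g * (l.1 * l.2)) := by
      intro l hl
      obtain ⟨h1, h2⟩ := hne l hl
      have hz : (g : ℤ) * (l.1 * l.2) ≠ 0 := mul_ne_zero (by exact_mod_cast hg0) (mul_ne_zero h1 h2)
      refine le_trans (le_of_eq ?_) (hprodX ps S (goodP_mono (le_max_left _ _) hps) hS _ hz)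
      apply prod_congr rfl
      intro p hp
      have hpp := Nat.prime_iff_prime_int.1 (mem_PW.1 hp).2.1
      have e1 : (p ∣ g * d ∨ (p : ℤ) ∣ l.1 ∨ (p : ℤ) ∣ l.2) ↔ (p : ℤ) ∣ (d : ℤ) * ((g : ℤ) * (l.1 * l.2)) := by
        rw [hpp.dvd_mul, hpp.dvd_mul, hpp.dvd_mul, Int.natCast_dvd_natCast, Int.natCast_dvd_natCast,
          (mem_PW.1 hp).2.1.dvd_mul]
        tauto
      by_cases h3 : (p : ℤ) ∣ (d : ℤ) * ((g : ℤ) * (l.1 * l.2))
      · rw [if_pos h3, if_pos (e1.2 h3)]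
      · rw [if_neg h3, if_neg (fun h4 => h3 (e1.1 h4))]
    refine (sum_le_sum h1).trans ?_
    rw [← mul_sum]
    calc C / Real.log (Real.log X) * ∑ l ∈ 𝓛, wI (g * (l.1 * l.2)) ≤
        C / Real.log (Real.log X) * (c₄ / C * (Real.log X * Real.log (Real.log X))) :=
          mul_le_mul_of_nonneg_left hw (by positivity)
      _ = c₄ * Real.log X := by
          field_simp
  obtain ⟨r, hr⟩ := Nat.chineseRemainderOfFinset ρ (fun p => p) (PW X S ps)
    (fun p hp => (mem_PW.1 hp).2.1.ne_zero)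
    (fun p hp q hq hpq => (Nat.coprime_primes (mem_PW.1 (by simpa using hp)).2.1
      (mem_PW.1 (by simpa using hq)).2.1).2 hpq)
  have hrc : r.Coprime (WW X S ps) := by
    unfold WW
    rw [Nat.coprime_prod_right_iff]
    intro p hp
    have hpp := (mem_PW.1 hp).2.1
    rw [Nat.coprime_comm, Nat.Prime.coprime_iff_not_dvd hpp]
    intro hd
    apply (hρ p hp).1
    exact (Nat.modEq_zero_iff_dvd).1 ((hr p hp).symm.trans ((Nat.modEq_zero_iff_dvd).2 hd))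
  have hXD1 : X ^ D ≤ X ^ (D + 1) := pow_le_pow_right₀ (by linarith) (by omega)
  have hUL : U ⊆ 𝓛 := filter_subset _ _
  obtain ⟨n, hnp, hXn, hn3, hnb, hnr, hUn⟩ := htX ps S hps hBV (ℤ × ℤ) U hUc (fun l => l.1) (fun l => l.2)
    (fun l hl => hne l (hUL hl))
    (fun l hl => ⟨(hle l (hUL hl)).1.trans hXD1, (hle l (hUL hl)).2.trans hXD1⟩)
    (fun k hk l hl => hdet k (hUL hk) l (hUL hl)) (g * d) (mul_ne_zero hg0 hd0.ne')
    (by
      push_cast
      rw [pow_succ]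
      exact mul_le_mul hgD (by linarith) (by linarith) (by positivity)) r hrc bad hbad
  refine ⟨n, hnp, hXn, hn3, hnb, ?_, fun l hl => ?_⟩
  · apply modEq_of_primes hd
    intro p hp
    have hpp := Nat.prime_of_mem_primeFactors hp
    have hpd := Nat.dvd_of_mem_primeFactors hp
    have hpled : p ≤ d := Nat.le_of_dvd hd0 hpd
    have hpPW := small_mem_PW hLd hL2d hps le_rfl hS hpp (hpled.trans (le_max_right 2 d))
    have h1 := hr p hpPW
    have h2 : ρ p = u p := (hρ p hpPW).2 (hpd.trans (dvd_mul_left d g))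
    have h3 : u p = h := by simp only [hu]; rw [if_pos hpd]
    rw [h2, h3] at h1
    exact (hnr.of_dvd ((prime_dvd_WW hpp).2 hpPW)).trans h1
  · by_cases hlU : l ∈ U
    · obtain ⟨q, h1, h2, h3, h4⟩ := hUn l hlU
      exact ⟨q, h1, h2, fun h5 => h3 (h5.mul_right d), h4⟩
    · rw [hU, mem_filter, not_and] at hlU
      have h1 := hlU hl
      push Not at h1
      obtain ⟨p, hp, hpg, hpz⟩ := h1
      have hpp := (mem_PW.1 hp).2.1
      refine ⟨p, hpp, le_rpow_of_le_yy hX0 (by linarith) (mem_PW.1 hp).1, fun h5 => hpg (h5.mul_right d), ?_⟩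
      have h6 : (p : ℤ) ∣ (n : ℤ) - ρ p :=
        Nat.modEq_iff_dvd.1 (((hnr.of_dvd ((prime_dvd_WW hpp).2 hp)).trans (hr p hp)).symm)
      have h7 : l.1 * (n : ℤ) + l.2 = l.1 * ((n : ℤ) - ρ p) + (l.1 * ρ p + l.2) := by ring
      rw [h7]
      exact dvd_add (h6.mul_left _) hpz

/-- the primitive form -/
theorem exists_prim (l : ℤ × ℤ) : ∃ (m : ℤ × ℤ) (t : ℤ), l.1 ≠ 0 →
    (l.1 = t * m.1 ∧ l.2 = t * m.2 ∧ 0 < m.1 ∧ IsCoprime m.1 m.2) := by
  by_cases h : l.1 = 0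
  · exact ⟨(0, 0), 0, fun h1 => absurd h h1⟩
  · have hg : 0 < Int.gcd l.1 l.2 := Int.gcd_pos_of_ne_zero_left _ h
    obtain ⟨g', m, n, hg', hmn, h1, h2⟩ := Int.exists_gcd_one' hg
    have hm : m ≠ 0 := by
      rintro rfl
      apply h
      rw [h1, zero_mul]
    rcases lt_or_gt_of_ne hm with hneg | hpos
    · refine ⟨(-m, -n), -g', fun _ => ⟨?_, ?_, ?_, ?_⟩⟩
      · rw [h1]; ring
      · rw [h2]; ring
      · simpa using hneg
      · exact (Int.isCoprime_iff_gcd_eq_one.2 hmn).neg_neg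
    · refine ⟨(m, n), g', fun _ => ⟨?_, ?_, hpos, Int.isCoprime_iff_gcd_eq_one.2 hmn⟩⟩
      · rw [h1]; ring
      · rw [h2]; ring

theorem sum_image_le_gen {ι κ : Type} [DecidableEq κ] (s : Finset ι) (f : ι → κ) (w : κ → ℝ) (hw : ∀ z, 0 ≤ w z) :
    ∑ z ∈ s.image f, w z ≤ ∑ i ∈ s, w (f i) := by
  induction s using Finset.induction_on with
  | empty => simp
  | insert a s ha ih =>
    rw [image_insert, sum_insert ha]
    by_cases h : f a ∈ s.image f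
    · rw [insert_eq_of_mem h]
      linarith [hw (f a)]
    · rw [sum_insert h]
      linarith

/-- arbitrary forms -/
theorem far_forms (D d : ℕ) (hd : Squarefree d) : ∃ c : ℝ, 0 < c ∧ ∀ᶠ X : ℝ in atTop,
    ∀ g : ℕ, g ≠ 0 → (g : ℝ) ≤ X ^ D → ∀ h : ℕ, h.Coprime d → ∀ 𝓛 : Finset (ℤ × ℤ),
    (∀ l ∈ 𝓛, l.1 ≠ 0 ∧ l.2 ≠ 0) → (∀ l ∈ 𝓛, |(l.1 : ℝ)| ≤ X ^ D ∧ |(l.2 : ℝ)| ≤ X ^ D) →
    ∑ l ∈ 𝓛, wI (g * (l.1 * l.2)) ≤ c * (Real.log X * Real.log (Real.log X)) →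
    ∀ bad : Finset ℕ, (bad.card : ℝ) ≤ X ^ (9 / 10 : ℝ) →
    ∃ p : ℕ, p.Prime ∧ X < p ∧ (p : ℝ) ≤ 3 * X ∧ p ∉ bad ∧ p ≡ h [MOD d] ∧
      ∀ l ∈ 𝓛, ∃ q : ℕ, q.Prime ∧ (q : ℝ) ≤ X ^ (1 / 1000 : ℝ) ∧ ¬ q ∣ g ∧ (q : ℤ) ∣ l.1 * p + l.2 := by
  obtain ⟨c, hc, hX⟩ := far_prim D d hd
  refine ⟨c, hc, ?_⟩
  choose red t hred using exists_prim
  filter_upwards [hX] with X hX
  intro g hg0 hgD h hh 𝓛 hne hle hw bad hbad
  have hgz : (g : ℤ) ≠ 0 := by exact_mod_cast hg0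
  have ht0 : ∀ l ∈ 𝓛, t l ≠ 0 := by
    intro l hl h0
    have := (hred l (hne l hl).1).1
    rw [h0, zero_mul] at this
    exact (hne l hl).1 this
  have habs : ∀ t x : ℤ, t ≠ 0 → |(x : ℝ)| ≤ |((t * x : ℤ) : ℝ)| := by
    intro t x ht
    push_cast
    rw [abs_mul]
    have h1 : (1 : ℝ) ≤ |(t : ℝ)| := by
      have : 1 ≤ |t| := Int.one_le_abs ht
      exact_mod_cast this
    exact le_mul_of_one_le_left (abs_nonneg _) h1
  obtain ⟨p, hp, hXp, hp3, hpb, hpd, hmain⟩ := hX g hg0 hgD h hh (𝓛.image red)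
    (by
      intro m hm
      rw [mem_image] at hm
      obtain ⟨l, hl, rfl⟩ := hm
      obtain ⟨h1, h2, h3, h4⟩ := hred l (hne l hl).1
      refine ⟨h3.ne', ?_⟩
      intro h0
      apply (hne l hl).2
      rw [h2, h0, mul_zero])
    (by
      intro m hm
      rw [mem_image] at hm
      obtain ⟨l, hl, rfl⟩ := hm
      obtain ⟨h1, h2, h3, h4⟩ := hred l (hne l hl).1
      refine ⟨?_, ?_⟩
      · refine (habs (t l) _ (ht0 l hl)).trans ?_
        rw [← h1]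
        exact (hle l hl).1
      · refine (habs (t l) _ (ht0 l hl)).trans ?_
        rw [← h2]
        exact (hle l hl).2)
    (by
      intro k hk l hl hkl heq
      rw [mem_image] at hk hl
      obtain ⟨k', hk', rfl⟩ := hk
      obtain ⟨l', hl', rfl⟩ := hl
      obtain ⟨-, -, hk3, hk4⟩ := hred k' (hne k' hk').1
      obtain ⟨-, -, hl3, hl4⟩ := hred l' (hne l' hl').1
      apply hkl
      have e1 : (red k').1 ∣ (red l').1 := by
        apply hk4.dvd_of_dvd_mul_right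
        rw [← heq]
        exact dvd_mul_right _ _
      have e2 : (red l').1 ∣ (red k').1 := by
        apply hl4.dvd_of_dvd_mul_right
        rw [heq]
        exact dvd_mul_right _ _
      have e3 : (red k').1 = (red l').1 :=
        Int.dvd_antisymm hk3.le hl3.le e1 e2
      rw [e3] at heq
      have e4 := mul_left_cancel₀ hl3.ne' heq
      exact Prod.ext e3 e4.symm)
    (by
      refine (sum_image_le_gen 𝓛 red (fun m => wI (g * (m.1 * m.2))) (fun _ => wI_nonneg _)).trans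
        (le_trans (sum_le_sum fun l hl => ?_) hw)
      obtain ⟨h1, h2, h3, h4⟩ := hred l (hne l hl).1
      apply wI_mono (mul_ne_zero hgz (mul_ne_zero (hne l hl).1 (hne l hl).2))
      apply mul_dvd_mul_left
      conv_rhs => rw [h1, h2]
      exact mul_dvd_mul (dvd_mul_left _ _) (dvd_mul_left _ _))
    bad hbad
  refine ⟨p, hp, hXp, hp3, hpb, hpd, fun l hl => ?_⟩
  obtain ⟨q, h1, h2, h3, h4⟩ := hmain (red l) (mem_image_of_mem _ hl)
  refine ⟨q, h1, h2, h3, ?_⟩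
  obtain ⟨e1, e2, -, -⟩ := hred l (hne l hl).1
  have e3 : l.1 * (p : ℤ) + l.2 = t l * ((red l).1 * p + (red l).2) := by
    conv_lhs => rw [e1, e2]
    ring
  rw [e3]
  exact h4.mul_left _

end Pool.Agent.K7.H61.FF
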