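import Pool.Agent.K7.H61.FF.Win

set_option autoImplicit false
set_option maxHeartbeats 4000000

/-! # Far-apart linear forms: final statements (helper61) -/

namespace Pool.Agent.K7.H61.FF

open Finset Filter
open Pool.Agent.H378R2
open Pool.Agent.TH101.RG

open scoped Classical

/-- the primes at which some form of the family is small -/
theorem bad_small (𝓛 : Finset (ℤ × ℤ)) (h : ∀ l ∈ 𝓛, l.1 ≠ 0) (N : ℕ) (Y : ℝ) (hY : 0 ≤ Y) :
    (((Icc 1 N).filter (fun n : ℕ => ∃ l ∈ 𝓛, |((l.1 * n + l.2 : ℤ) : ℝ)| ≤ Y)).card : ℝ) ≤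
      𝓛.card * (2 * Y + 1) := by
  have h1 : (Icc 1 N).filter (fun n : ℕ => ∃ l ∈ 𝓛, |((l.1 * n + l.2 : ℤ) : ℝ)| ≤ Y) ⊆
      𝓛.biUnion (fun l => (Icc 1 N).filter (fun n : ℕ => |((l.1 * n + l.2 : ℤ) : ℝ)| ≤ Y)) := by
    intro n hn
    rw [mem_filter] at hn
    obtain ⟨hn, l, hl, hnl⟩ := hn
    rw [mem_biUnion]
    exact ⟨l, hl, mem_filter.2 ⟨hn, hnl⟩⟩
  have h2 : (((Icc 1 N).filter (fun n : ℕ => ∃ l ∈ 𝓛, |((l.1 * n + l.2 : ℤ) : ℝ)| ≤ Y)).card : ℝ) ≤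
      ∑ l ∈ 𝓛, (((Icc 1 N).filter (fun n : ℕ => |((l.1 * n + l.2 : ℤ) : ℝ)| ≤ Y)).card : ℝ) := by
    exact_mod_cast (card_le_card h1).trans card_biUnion_le
  refine h2.trans ((sum_le_card_nsmul _ _ _ fun l hl => few_small l.1 l.2 (h l hl) N Y hY).trans ?_)
  rw [nsmul_eq_mul]

/-- growth -/
theorem ev_grow (K : ℝ) : ∀ᶠ X : ℝ in atTop, X ^ (7 / 8 : ℝ) +
    K * (Real.log X * Real.log (Real.log X)) * (2 * X ^ (1 / 1000 : ℝ) + 1) ≤ X ^ (9 / 10 : ℝ) := by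
  have t1 := Real.tendsto_log_atTop
  filter_upwards [t1.eventually (Pool.Agent.H378R2.ev_pow_exp 3 (1 / 80) 1 (by norm_num)),
    t1.eventually_ge_atTop (|K| + 100), eventually_ge_atTop 4] with X hE hL hX4
  set L := Real.log X with hLd
  have hX0 : 0 < X := by linarith
  have hK := abs_nonneg K
  have hL1 : 1 ≤ L := by linarith
  have hlog : Real.log L ≤ L := (Real.log_le_sub_one_of_pos (by linarith)).trans (by linarith)
  have hlog0 : 0 ≤ Real.log L := Real.log_nonneg hL1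
  set E := Real.exp (1 / 80 * L) with hEd
  rw [one_mul] at hE
  have hpowE : ∀ k : ℕ, X ^ ((k : ℝ) / 80) = E ^ k := by
    intro k
    rw [hEd, ← Real.exp_nat_mul, Real.rpow_def_of_pos hX0, ← hLd]
    congr 1
    ring
  have e78 : X ^ (7 / 8 : ℝ) = E ^ 70 := by rw [← hpowE 70]; norm_num
  have e910 : X ^ (9 / 10 : ℝ) = E ^ 72 := by rw [← hpowE 72]; norm_num
  have hE1 : 1 ≤ E := Real.one_le_exp (by linarith)
  have e1000 : X ^ (1 / 1000 : ℝ) ≤ E := by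
    have h1 := hpowE 1
    rw [pow_one] at h1
    rw [← h1]
    exact Real.rpow_le_rpow_of_exponent_le (by linarith) (by norm_num)
  have h1 : K * (L * Real.log L) ≤ L ^ 3 := by
    calc K * (L * Real.log L) ≤ |K| * (L * Real.log L) :=
          mul_le_mul_of_nonneg_right (le_abs_self K) (by positivity)
      _ ≤ L * (L * L) := by
          apply mul_le_mul (by linarith) _ (by positivity) (by linarith)
          exact mul_le_mul_of_nonneg_left hlog (by linarith)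
      _ = L ^ 3 := by ring
  have h2 : K * (L * Real.log L) * (2 * X ^ (1 / 1000 : ℝ) + 1) ≤ E * (3 * E) := by
    have h3 : (0 : ℝ) ≤ X ^ (1 / 1000 : ℝ) := by positivity
    calc K * (L * Real.log L) * (2 * X ^ (1 / 1000 : ℝ) + 1) ≤ E * (2 * X ^ (1 / 1000 : ℝ) + 1) :=
          mul_le_mul_of_nonneg_right (h1.trans hE) (by linarith)
      _ ≤ E * (3 * E) := mul_le_mul_of_nonneg_left (by linarith) (by linarith)
  rw [e78, e910]
  have h4 : (4 : ℝ) ≤ E := by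
    have : L ≤ L ^ 3 := by nlinarith [mul_nonneg (by linarith : (0:ℝ) ≤ L) (by nlinarith : (0:ℝ) ≤ L ^ 2 - 1)]
    linarith
  have h5 : E ^ 2 ≤ E ^ 70 := pow_le_pow_right₀ hE1 (by norm_num)
  have h6 : E ^ 72 = E ^ 2 * E ^ 70 := by ring
  have h7 : (4 : ℝ) ≤ E ^ 2 := by nlinarith
  have h8 : 4 * E ^ 70 ≤ E ^ 2 * E ^ 70 := mul_le_mul_of_nonneg_right h7 (by positivity)
  rw [h6]
  nlinarith

/-- far-apart forms are composite at the same primes -/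
theorem far_composite (D d : ℕ) (hd : Squarefree d) : ∃ c : ℝ, 0 < c ∧ ∀ᶠ X : ℝ in atTop,
    ∀ g : ℕ, g ≠ 0 → (g : ℝ) ≤ X ^ D → ∀ h : ℕ, h.Coprime d → ∀ 𝓛 : Finset (ℤ × ℤ),
    (∀ l ∈ 𝓛, l.1 ≠ 0 ∧ l.2 ≠ 0) → (∀ l ∈ 𝓛, |(l.1 : ℝ)| ≤ X ^ D ∧ |(l.2 : ℝ)| ≤ X ^ D) →
    ∑ l ∈ 𝓛, wI (g * (l.1 * l.2)) ≤ c * (Real.log X * Real.log (Real.log X)) →
    ∀ bad : Finset ℕ, (bad.card : ℝ) ≤ X ^ (7 / 8 : ℝ) →
    ∃ p : ℕ, p.Prime ∧ X < p ∧ (p : ℝ) ≤ 3 * X ∧ p ∉ bad ∧ p ≡ h [MOD d] ∧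
      ∀ l ∈ 𝓛, ∃ q : ℕ, q.Prime ∧ (q : ℝ) ≤ X ^ (1 / 1000 : ℝ) ∧ ¬ q ∣ g ∧ (q : ℤ) ∣ l.1 * p + l.2 ∧
        (q : ℤ) < |l.1 * p + l.2| := by
  obtain ⟨c, hc, hX⟩ := far_forms D d hd
  refine ⟨c, hc, ?_⟩
  filter_upwards [hX, ev_grow c, eventually_ge_atTop 4] with X hX hgr hX4
  intro g hg0 hgD h hh 𝓛 hne hle hw bad hbad
  have hgz : (g : ℤ) ≠ 0 := by exact_mod_cast hg0
  have hcard : (𝓛.card : ℝ) ≤ c * (Real.log X * Real.log (Real.log X)) := by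
    refine le_trans ?_ hw
    have h1 : ∑ l ∈ 𝓛, (1 : ℝ) ≤ ∑ l ∈ 𝓛, wI (g * (l.1 * l.2)) := sum_le_sum fun l hl =>
      wI_one_le (mul_ne_zero hgz (mul_ne_zero (hne l hl).1 (hne l hl).2))
    simpa using h1
  have hpos : (0 : ℝ) ≤ X ^ (1 / 1000 : ℝ) := by positivity
  set small : Finset ℕ :=
    (Icc 1 ⌊3 * X⌋₊).filter (fun n : ℕ => ∃ l ∈ 𝓛, |((l.1 * n + l.2 : ℤ) : ℝ)| ≤ X ^ (1 / 1000 : ℝ)) with hsmall
  obtain ⟨p, hp, hXp, hp3, hpb, hpd, hmain⟩ := hX g hg0 hgD h hh 𝓛 hne hle hw (bad ∪ small)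
    (by
      have hu : ((bad ∪ small).card : ℝ) ≤ (bad.card : ℝ) + small.card := by
        exact_mod_cast card_union_le bad small
      refine hu.trans (le_trans ?_ hgr)
      apply add_le_add hbad
      refine (bad_small 𝓛 (fun l hl => (hne l hl).1) _ _ hpos).trans ?_
      exact mul_le_mul_of_nonneg_right hcard (by linarith))
  rw [mem_union, not_or] at hpb
  refine ⟨p, hp, hXp, hp3, hpb.1, hpd, fun l hl => ?_⟩
  obtain ⟨q, h1, h2, h3, h4⟩ := hmain l hl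
  refine ⟨q, h1, h2, h3, h4, ?_⟩
  by_contra hcon
  push Not at hcon
  apply hpb.2
  rw [hsmall, mem_filter, mem_Icc]
  refine ⟨⟨hp.pos, Nat.le_floor hp3⟩, l, hl, ?_⟩
  have h5 : |((l.1 * p + l.2 : ℤ) : ℝ)| ≤ q := by
    have : ((|l.1 * (p : ℤ) + l.2| : ℤ) : ℝ) ≤ ((q : ℤ) : ℝ) := by exact_mod_cast hcon
    rw [Int.cast_abs] at this
    exact_mod_cast this
  exact h5.trans h2

/-- an integer with a proper prime factor is not prime -/
theorem not_prime_of {n : ℤ} {q : ℕ} (hq : q.Prime) (hd : (q : ℤ) ∣ n) (hlt : (q : ℤ) < |n|) : ¬ n.natAbs.Prime := by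
  intro hn
  have h1 : q ∣ n.natAbs := Int.natCast_dvd.1 hd
  have h2 := (Nat.prime_dvd_prime_iff_eq hq hn).1 h1
  rw [Int.abs_eq_natAbs, ← h2] at hlt
  exact lt_irrefl _ hlt

/-- windows -/
theorem far_windows (D d : ℕ) (hd : Squarefree d) : ∃ c : ℝ, 0 < c ∧ ∀ᶠ X : ℝ in atTop,
    ∀ h : ℕ, h.Coprime d → ∀ H : ℝ, Real.log X ≤ H → ∀ 𝓒 : Finset (ℤ × ℤ),
    (∀ l ∈ 𝓒, l.1 ≠ 0) → (∀ l ∈ 𝓒, |(l.1 : ℝ)| ≤ X ^ D ∧ |(l.2 : ℝ)| ≤ X ^ D) →
    H * ∑ l ∈ 𝓒, wI l.1 ≤ c * (Real.log X * Real.log (Real.log X)) →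
    ∀ bad : Finset ℕ, (bad.card : ℝ) ≤ X ^ (7 / 8 : ℝ) →
    ∃ p : ℕ, p.Prime ∧ X < p ∧ (p : ℝ) ≤ 3 * X ∧ p ∉ bad ∧ p ≡ h [MOD d] ∧
      ∀ l ∈ 𝓒, ∀ q : ℕ, q.Prime → q ≠ p → H < |((q - (l.1 * p + l.2) : ℤ) : ℝ)| := by
  obtain ⟨c₁, hc₁, hX1⟩ := far_composite (D + 2) d hd
  obtain ⟨C, hC, hX2⟩ := window_sum D
  refine ⟨min (c₁ / C) 1, lt_min (by positivity) one_pos, ?_⟩
  have t1 := Real.tendsto_log_atTop
  have t2 : Tendsto (fun y : ℝ => Real.log (Real.log y)) atTop atTop := t1.comp t1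
  filter_upwards [hX1, hX2, ev_grow 1, eventually_ge_atTop 4, t1.eventually_ge_atTop 100,
    t2.eventually_ge_atTop 1] with X hX1 hX2 hgr hX4 hL100 hLL
  intro h hh H hH 𝓒 hne hle hw bad hbad
  set L := Real.log X with hL
  have hL0 : 0 < L := by linarith
  have hX0 : 0 < X := by linarith
  have hlL : 0 < Real.log L := by linarith
  rcases 𝓒.eq_empty_or_nonempty with hemp | hnonemp
  · subst hemp
    obtain ⟨p, hp, hXp, hp3, hpb, hpd, -⟩ := hX1 1 one_ne_zero (by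
      rw [Nat.cast_one]; exact one_le_pow₀ (by linarith)) h hh ∅ (by simp) (by simp) (by
        rw [sum_empty]; positivity) bad hbad
    exact ⟨p, hp, hXp, hp3, hpb, hpd, by simp⟩
  have hHu : H ≤ L * Real.log L := by
    obtain ⟨l₀, hl₀⟩ := hnonemp
    have h1 : 1 ≤ ∑ l ∈ 𝓒, wI l.1 := (wI_one_le (hne l₀ hl₀)).trans
      (single_le_sum (f := fun l : ℤ × ℤ => wI l.1) (fun l _ => wI_nonneg _) hl₀)
    have h2 : H * 1 ≤ H * ∑ l ∈ 𝓒, wI l.1 := mul_le_mul_of_nonneg_left h1 (by linarith)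
    have h3 : min (c₁ / C) 1 * (L * Real.log L) ≤ 1 * (L * Real.log L) :=
      mul_le_mul_of_nonneg_right (min_le_right _ _) (by positivity)
    linarith
  have hHX : H ≤ X := by
    have h1 := hgr
    have h2 : (0 : ℝ) ≤ X ^ (1 / 1000 : ℝ) := by positivity
    have h3 : X ^ (9 / 10 : ℝ) ≤ X := by
      calc X ^ (9 / 10 : ℝ) ≤ X ^ (1 : ℝ) := Real.rpow_le_rpow_of_exponent_le (by linarith) (by norm_num)
        _ = X := Real.rpow_one X
    have h4 : (0 : ℝ) ≤ X ^ (7 / 8 : ℝ) := by positivity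
    have h5 : 0 ≤ L * Real.log L := by positivity
    nlinarith
  set N : ℕ := ⌊H⌋₊ with hN
  have hNH : (N : ℝ) ≤ H := Nat.floor_le (by linarith)
  have hNH' : H < N + 1 := Nat.lt_floor_add_one _
  have hNL : L / 2 ≤ N := by linarith
  set 𝓛 : Finset (ℤ × ℤ) := 𝓒.biUnion (fun l => ((Icc (l.2 - N) (l.2 + N)).filter (fun n : ℤ => n ≠ 0)).image
    (fun n => (l.1, n))) with h𝓛
  have hmem : ∀ m : ℤ × ℤ, m ∈ 𝓛 ↔ ∃ l ∈ 𝓒, m.1 = l.1 ∧ l.2 - N ≤ m.2 ∧ m.2 ≤ l.2 + N ∧ m.2 ≠ 0 := by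
    intro m
    rw [h𝓛, mem_biUnion]
    constructor
    · rintro ⟨l, hl, hm⟩
      rw [mem_image] at hm
      obtain ⟨n, hn, rfl⟩ := hm
      rw [mem_filter, mem_Icc] at hn
      exact ⟨l, hl, rfl, hn.1.1, hn.1.2, hn.2⟩
    · rintro ⟨l, hl, h1, h2, h3, h4⟩
      refine ⟨l, hl, ?_⟩
      rw [mem_image]
      refine ⟨m.2, ?_, ?_⟩
      · rw [mem_filter, mem_Icc]
        exact ⟨⟨h2, h3⟩, h4⟩
      · rw [← h1]
  have hXD : (1 : ℝ) ≤ X ^ D := one_le_pow₀ (by linarith)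
  have hXD1 : X ^ (D + 2) = X ^ D * X * X := by ring
  obtain ⟨p, hp, hXp, hp3, hpb, hpd, hmain⟩ := hX1 1 one_ne_zero (by
      rw [Nat.cast_one]; exact one_le_pow₀ (by linarith)) h hh 𝓛
    (by
      intro m hm
      obtain ⟨l, hl, h1, h2, h3, h4⟩ := (hmem m).1 hm
      rw [h1]
      exact ⟨hne l hl, h4⟩)
    (by
      intro m hm
      obtain ⟨l, hl, h1, h2, h3, h4⟩ := (hmem m).1 hm
      have h5 : |(m.2 : ℝ)| ≤ |(l.2 : ℝ)| + N := by
        have e1 : ((l.2 - N : ℤ) : ℝ) ≤ m.2 := by exact_mod_cast h2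
        have e2 : (m.2 : ℝ) ≤ ((l.2 + N : ℤ) : ℝ) := by exact_mod_cast h3
        push_cast at e1 e2
        have h6 : |(m.2 : ℝ) - l.2| ≤ N := by
          rw [abs_le]
          constructor <;> linarith
        have h7 : (m.2 : ℝ) = l.2 + (m.2 - l.2) := by ring
        rw [h7]
        exact (abs_add_le _ _).trans (by linarith)
      have h6 := hle l hl
      have h7 : X ^ D ≤ X ^ D * X := le_mul_of_one_le_right (by linarith) (by linarith)
      have h8 : X ≤ X ^ D * X := le_mul_of_one_le_left hX0.le hXD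
      have h9 : X ^ D * X * 4 ≤ X ^ D * X * X := mul_le_mul_of_nonneg_left hX4 (by positivity)
      refine ⟨?_, ?_⟩
      · rw [h1]
        refine h6.1.trans ?_
        rw [hXD1]
        linarith
      · rw [hXD1]
        linarith [h6.2])
    (by
      have h1 : ∑ m ∈ 𝓛, wI ((1 : ℕ) * (m.1 * m.2)) ≤ ∑ l ∈ 𝓒, wI l.1 * (C * N) := by
        rw [h𝓛]
        have e1 : ∀ (s : Finset (ℤ × ℤ)), ∑ m ∈ s.biUnion (fun l =>
            ((Icc (l.2 - N) (l.2 + N)).filter (fun n : ℤ => n ≠ 0)).image (fun n => (l.1, n))),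
            wI ((1 : ℕ) * (m.1 * m.2)) ≤ ∑ l ∈ s, ∑ m ∈ ((Icc (l.2 - N) (l.2 + N)).filter
              (fun n : ℤ => n ≠ 0)).image (fun n => (l.1, n)), wI ((1 : ℕ) * (m.1 * m.2)) := by
          intro s
          induction s using Finset.induction_on with
          | empty => simp
          | insert a s ha ih =>
            rw [biUnion_insert, sum_insert ha]
            have h2 := sum_union_inter (s₁ := ((Icc (a.2 - N) (a.2 + N)).filter
              (fun n : ℤ => n ≠ 0)).image (fun n => (a.1, n))) (s₂ := s.biUnion (fun l =>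
              ((Icc (l.2 - N) (l.2 + N)).filter (fun n : ℤ => n ≠ 0)).image (fun n => (l.1, n))))
              (f := fun m : ℤ × ℤ => wI ((1 : ℕ) * (m.1 * m.2)))
            have h3 : 0 ≤ ∑ m ∈ ((Icc (a.2 - N) (a.2 + N)).filter
              (fun n : ℤ => n ≠ 0)).image (fun n => (a.1, n)) ∩ s.biUnion (fun l =>
              ((Icc (l.2 - N) (l.2 + N)).filter (fun n : ℤ => n ≠ 0)).image (fun n => (l.1, n))),
              wI ((1 : ℕ) * (m.1 * m.2)) := sum_nonneg fun _ _ => wI_nonneg _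
            linarith
        refine (e1 𝓒).trans (sum_le_sum fun l hl => ?_)
        refine (sum_image_le_gen _ (fun n : ℤ => (l.1, n)) (fun m => wI ((1 : ℕ) * (m.1 * m.2)))
          (fun _ => wI_nonneg _)).trans ?_
        have e2 : ∀ n ∈ (Icc (l.2 - N) (l.2 + N)).filter (fun n : ℤ => n ≠ 0),
            wI ((1 : ℕ) * (l.1 * n)) ≤ wI l.1 * wI n := by
          intro n hn
          rw [Nat.cast_one, one_mul]
          exact wI_mul_le (hne l hl) (mem_filter.1 hn).2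
        refine (sum_le_sum e2).trans ?_
        rw [← mul_sum]
        exact mul_le_mul_of_nonneg_left (hX2 N hNL (hNH.trans hHX) l.2 (hle l hl).2) (wI_nonneg _)
      refine h1.trans ?_
      rw [← sum_mul]
      have h2 : 0 ≤ ∑ l ∈ 𝓒, wI l.1 := sum_nonneg fun _ _ => wI_nonneg _
      calc (∑ l ∈ 𝓒, wI l.1) * (C * N) ≤ (∑ l ∈ 𝓒, wI l.1) * (C * H) :=
            mul_le_mul_of_nonneg_left (mul_le_mul_of_nonneg_left hNH hC.le) h2
        _ = C * (H * ∑ l ∈ 𝓒, wI l.1) := by ring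
        _ ≤ C * (min (c₁ / C) 1 * (L * Real.log L)) := mul_le_mul_of_nonneg_left hw hC.le
        _ ≤ C * (c₁ / C * (L * Real.log L)) := by
            apply mul_le_mul_of_nonneg_left _ hC.le
            exact mul_le_mul_of_nonneg_right (min_le_left _ _) (by positivity)
        _ = c₁ * (L * Real.log L) := by
            field_simp)
    bad hbad
  refine ⟨p, hp, hXp, hp3, hpb, hpd, fun l hl q hq hqp => ?_⟩
  by_contra hcon
  push Not at hcon
  apply hqp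
  set n : ℤ := q - l.1 * p with hn
  have h1 : |n - l.2| ≤ N := by
    have h2 : ((q - (l.1 * p + l.2) : ℤ)) = n - l.2 := by rw [hn]; ring
    rw [h2] at hcon
    have h3 : ((n - l.2).natAbs : ℝ) ≤ H := by
      rw [Nat.cast_natAbs, Int.cast_abs]
      exact hcon
    have h4 := Nat.le_floor h3
    rw [Int.abs_eq_natAbs]
    exact_mod_cast h4
  rw [abs_le] at h1
  by_cases hn0 : n = 0
  · have h2 : (q : ℤ) = l.1 * p := by linarith
    have h3 : (p : ℤ) ∣ q := ⟨l.1, by rw [h2]; ring⟩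
    exact ((Nat.prime_dvd_prime_iff_eq hp hq).1 (by exact_mod_cast h3)).symm
  · exfalso
    obtain ⟨q', h2, -, -, h4, h5⟩ := hmain (l.1, n) ((hmem _).2 ⟨l, hl, rfl, by
      simp only; linarith, by simp only; linarith, hn0⟩)
    have h6 : l.1 * (p : ℤ) + n = q := by rw [hn]; ring
    simp only [h6] at h4 h5
    have h7 := (Nat.prime_dvd_prime_iff_eq h2 hq).1 (by exact_mod_cast h4)
    rw [h7, Nat.abs_cast] at h5
    exact lt_irrefl _ h5

end Pool.Agent.K7.H61.FF
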