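import Pool.Agent.K7.H61.FF.Far
import Pool.Agent.TH101.RG.Mult

set_option autoImplicit false
set_option maxHeartbeats 4000000

/-! # Windows (helper61) -/

namespace Pool.Agent.K7.H61.FF

open Finset Filter
open Pool.Agent.H378R2
open Pool.Agent.TH101.RG
open Pool.Agent.H318R2.Cr (Pz V one_sub_inv_pos)

open scoped Classical

/-- the multiples of `m` in an interval -/
theorem card_mult (b : ℤ) (N m : ℕ) (hm : 0 < m) :
    (((Icc (b - N) (b + N)).filter (fun n : ℤ => (m : ℤ) ∣ n)).card : ℝ) ≤ (2 * N + 1) / m + 1 := by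
  have h1 : Icc (b - N) (b + N) = Ioc (b - N - 1) (b + N) := by
    ext x
    rw [mem_Icc, mem_Ioc]
    omega
  have hmr : (0 : ℝ) < m := by exact_mod_cast hm
  have h2 := Int.Ioc_filter_dvd_card (b - N - 1) (b + N) (show (0 : ℤ) < (m : ℤ) by exact_mod_cast hm)
  rw [h1]
  have h3 : (((Ioc (b - N - 1) (b + N)).filter (fun n : ℤ => (m : ℤ) ∣ n)).card : ℝ) =
      (((((Ioc (b - N - 1) (b + N)).filter (fun n : ℤ => (m : ℤ) ∣ n)).card : ℕ) : ℤ) : ℝ) := by push_cast; rfl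
  rw [h3, h2]
  have h4 : (0 : ℝ) ≤ (2 * N + 1) / m + 1 := by positivity
  rw [Int.cast_max, Int.cast_zero]
  apply max_le _ h4
  have h5 : ((⌊((b + N : ℤ) : ℚ) / ((m : ℤ) : ℚ)⌋ : ℤ) : ℝ) ≤ ((b : ℝ) + N) / m := by
    have h6 := Int.floor_le (((b + N : ℤ) : ℚ) / ((m : ℤ) : ℚ))
    have h7 : (((⌊((b + N : ℤ) : ℚ) / ((m : ℤ) : ℚ)⌋ : ℤ) : ℚ) : ℝ) ≤
        ((((b + N : ℤ) : ℚ) / ((m : ℤ) : ℚ) : ℚ) : ℝ) := by
      exact_mod_cast h6
    push_cast at h7 ⊢
    exact h7
  have h6 : ((b : ℝ) - N - 1) / m - 1 ≤ ((⌊((b - N - 1 : ℤ) : ℚ) / ((m : ℤ) : ℚ)⌋ : ℤ) : ℝ) := by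
    have h6 := (Int.sub_one_lt_floor (((b - N - 1 : ℤ) : ℚ) / ((m : ℤ) : ℚ))).le
    have h7 : (((((b - N - 1 : ℤ) : ℚ) / ((m : ℤ) : ℚ) - 1 : ℚ)) : ℝ) ≤
        (((⌊((b - N - 1 : ℤ) : ℚ) / ((m : ℤ) : ℚ)⌋ : ℤ) : ℚ) : ℝ) := by
      exact_mod_cast h6
    push_cast at h7 ⊢
    exact h7
  have h7 : ((b : ℝ) + N) / m - ((b : ℝ) - N - 1) / m = (2 * N + 1) / m := by ring
  rw [Int.cast_sub]
  linarith

/-- the telescoping bound -/
theorem sum_pred_le (N : ℕ) : ∑ p ∈ Pz N, (1 : ℝ) / ((p : ℝ) - 1) / p ≤ 1 := by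
  have h1 : ∀ n : ℕ, ∑ p ∈ Icc 2 (n + 1), (1 : ℝ) / ((p : ℝ) - 1) / p = 1 - 1 / ((n : ℝ) + 1) := by
    intro n
    induction n with
    | zero => simp
    | succ n ih =>
      rw [sum_Icc_succ_top (by omega), ih]
      push_cast
      have e1 : (n : ℝ) + 1 ≠ 0 := by positivity
      have e2 : (n : ℝ) + 1 + 1 ≠ 0 := by positivity
      field_simp
      ring
  have h2 : Pz N ⊆ Icc 2 (N + 1) := by
    intro p hp
    rw [Pool.Agent.H318R2.Cr.mem_Pz] at hp
    rw [mem_Icc]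
    exact ⟨hp.1.two_le, by omega⟩
  refine (sum_le_sum_of_subset_of_nonneg h2 fun p hp _ => ?_).trans ((h1 N).le.trans ?_)
  · rw [mem_Icc] at hp
    have : (2 : ℝ) ≤ p := by exact_mod_cast hp.1
    have : (0 : ℝ) ≤ (p : ℝ) - 1 := by linarith
    positivity
  · have : (0 : ℝ) ≤ 1 / ((N : ℝ) + 1) := by positivity
    linarith

/-- the sum of `|n|/φ(|n|)` over a short interval -/
theorem window_sum (D : ℕ) : ∃ C : ℝ, 0 < C ∧ ∀ᶠ X : ℝ in atTop, ∀ N : ℕ, Real.log X / 2 ≤ N → (N : ℝ) ≤ X →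
    ∀ b : ℤ, |(b : ℝ)| ≤ X ^ D →
    ∑ n ∈ (Icc (b - N) (b + N)).filter (fun n : ℤ => n ≠ 0), wI n ≤ C * N := by
  obtain ⟨c₁, c₂, hc₁, hc₁₂, hV⟩ := Pool.Agent.H318R2.Cr.cz_bounds
  refine ⟨Real.exp (2 * (4 * (D + 2))) * (3 * Real.exp 1 + 1 / c₁), by positivity, ?_⟩
  filter_upwards [Real.tendsto_log_atTop.eventually_ge_atTop 1000, eventually_ge_atTop 4] with X hL hX4
  intro N hN hNX b hb
  set L := Real.log X with hLd
  have hX0 : 0 < X := by linarith
  have hN2 : 2 ≤ N := by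
    have : (2 : ℝ) ≤ N := by linarith
    exact_mod_cast this
  have hNr : (2 : ℝ) ≤ N := by exact_mod_cast hN2
  have hPp : ∀ p ∈ Pz N, p.Prime := fun p hp => (Pool.Agent.H318R2.Cr.mem_Pz.1 hp).1
  have hpm : ∀ p ∈ Pz N, (0 : ℝ) < (p : ℝ) - 1 := by
    intro p hp
    have : (2 : ℝ) ≤ p := by exact_mod_cast (hPp p hp).two_le
    linarith
  set I := (Icc (b - N) (b + N)).filter (fun n : ℤ => n ≠ 0) with hI
  -- pointwise
  have h1 : ∀ n ∈ I, wI n ≤ Real.exp (2 * (4 * (D + 2))) *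
      ∏ p ∈ Pz N, (1 + if (p : ℤ) ∣ n then 1 / ((p : ℝ) - 1) else 0) := by
    intro n hn
    rw [hI, mem_filter, mem_Icc] at hn
    obtain ⟨⟨hn1, hn2⟩, hn0⟩ := hn
    unfold wI
    rw [← prod_inv_primeFactors _ (Int.natAbs_ne_zero.2 hn0)]
    rw [← prod_filter_mul_prod_filter_not n.natAbs.primeFactors (fun p => p ≤ N)]
    rw [mul_comm]
    apply mul_le_mul
    · apply inv_prod_le
      · intro q hq
        exact Nat.prime_of_mem_primeFactors (mem_filter.1 hq).1
      · have h2 : ∀ q ∈ n.natAbs.primeFactors.filter (fun p => ¬ p ≤ N), (1 : ℝ) / q ≤ 1 / N := by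
          intro q hq
          rw [mem_filter, not_le] at hq
          apply one_div_le_one_div_of_le (by linarith)
          exact_mod_cast hq.2.le
        refine (sum_le_card_nsmul _ _ _ h2).trans ?_
        rw [nsmul_eq_mul]
        have h3 : ((n.natAbs.primeFactors.filter (fun p => ¬ p ≤ N)).card : ℝ) ≤ 2 * (((D + 2 : ℕ) : ℝ) * L) := by
          refine le_trans (by exact_mod_cast card_filter_le _ _) (card_pf_le (by linarith) (D + 2) n ?_)
          have h4 : |(n : ℝ)| ≤ |(b : ℝ)| + N := by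
            have h5 : |(n : ℝ) - b| ≤ N := by
              rw [abs_le]
              have e1 : ((b - N : ℤ) : ℝ) ≤ n := by exact_mod_cast hn1
              have e2 : (n : ℝ) ≤ ((b + N : ℤ) : ℝ) := by exact_mod_cast hn2
              push_cast at e1 e2
              constructor <;> linarith
            have h6 : (n : ℝ) = b + (n - b) := by ring
            rw [h6]
            exact (abs_add_le _ _).trans (by linarith)
          have h5 : X ^ (D + 2) = X ^ D * X * X := by ring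
          have h6 : (1 : ℝ) ≤ X ^ D := one_le_pow₀ (by linarith)
          rw [h5]
          nlinarith [mul_nonneg (by linarith : (0 : ℝ) ≤ X ^ D) hX0.le, mul_nonneg (by linarith : (0 : ℝ) ≤ X ^ D - 1) hX0.le]
        calc ((n.natAbs.primeFactors.filter (fun p => ¬ p ≤ N)).card : ℝ) * (1 / (N : ℝ)) ≤
            2 * (((D + 2 : ℕ) : ℝ) * L) * (1 / (L / 2)) := by
              apply mul_le_mul h3 _ (by positivity) (by positivity)
              exact one_div_le_one_div_of_le (by linarith) hN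
          _ = 4 * (D + 2) := by
              push_cast
              field_simp
              ring
    · have h2 : n.natAbs.primeFactors.filter (fun p => p ≤ N) ⊆ (Pz N).filter (fun p : ℕ => (p : ℤ) ∣ n) := by
        intro p hp
        rw [mem_filter, Nat.mem_primeFactors] at hp
        rw [mem_filter, Pool.Agent.H318R2.Cr.mem_Pz]
        exact ⟨⟨hp.1.1, hp.2⟩, Int.natCast_dvd.2 hp.1.2.1⟩
      refine (prod_mono_real h2 _ fun p hp => inv_ge_one (hPp p (mem_filter.1 hp).1)).trans (le_of_eq ?_)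
      rw [prod_filter]
      apply prod_congr rfl
      intro p hp
      have h3 := hpm p hp
      have h4 : (p : ℝ) ≠ 0 := by linarith
      split_ifs
      · have h5 : (1 : ℝ) - 1 / p = ((p : ℝ) - 1) / p := by field_simp
        rw [h5, inv_div]
        have h6 : (p : ℝ) - 1 ≠ 0 := h3.ne'
        field_simp
        ring
      · simp
    · exact prod_nonneg fun p hp => (inv_pos.2 (one_sub_inv_pos (Nat.prime_of_mem_primeFactors (mem_filter.1 hp).1))).le
    · exact (Real.exp_pos _).le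
  refine (sum_le_sum h1).trans ?_
  rw [← mul_sum, mul_assoc]
  apply mul_le_mul_of_nonneg_left _ (Real.exp_pos _).le
  -- expansion
  have h2 : ∑ n ∈ I, ∏ p ∈ Pz N, (1 + if (p : ℤ) ∣ n then 1 / ((p : ℝ) - 1) else 0) ≤
      ∑ s ∈ (Pz N).powerset, (∏ p ∈ s, 1 / ((p : ℝ) - 1)) * ((2 * N + 1) / ((∏ p ∈ s, p : ℕ) : ℝ) + 1) := by
    simp_rw [prod_one_add]
    rw [sum_comm]
    apply sum_le_sum
    intro s hs
    rw [mem_powerset] at hs
    have h3 : ∀ n : ℤ, ∏ p ∈ s, (if (p : ℤ) ∣ n then 1 / ((p : ℝ) - 1) else 0) =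
        if ((∏ p ∈ s, p : ℕ) : ℤ) ∣ n then ∏ p ∈ s, 1 / ((p : ℝ) - 1) else 0 := by
      intro n
      have h4 : ((∏ p ∈ s, p : ℕ) : ℤ) ∣ n ↔ ∀ p ∈ s, (p : ℤ) ∣ n := by
        constructor
        · intro h p hp
          exact (Int.natCast_dvd_natCast.2 (dvd_prod_of_mem (fun p => p) hp)).trans h
        · intro h
          rw [Int.natCast_dvd]
          apply prod_primes_dvd
          · intro p hp
            exact (hPp p (hs hp)).prime
          · intro p hp
            exact Int.natCast_dvd.1 (h p hp)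
      by_cases h5 : ((∏ p ∈ s, p : ℕ) : ℤ) ∣ n
      · rw [if_pos h5]
        apply prod_congr rfl
        intro p hp
        rw [if_pos (h4.1 h5 p hp)]
      · rw [if_neg h5]
        rw [h4] at h5
        push Not at h5
        obtain ⟨p, hp, hpn⟩ := h5
        exact prod_eq_zero hp (if_neg hpn)
    simp_rw [h3]
    rw [← sum_filter, sum_const, nsmul_eq_mul, mul_comm]
    apply mul_le_mul_of_nonneg_left _ (prod_nonneg fun p hp => (one_div_pos.2 (hpm p (hs hp))).le)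
    refine le_trans ?_ (card_mult b N (∏ p ∈ s, p) (prod_pos fun p hp => (hPp p (hs hp)).pos))
    apply Nat.cast_le.2
    apply card_le_card
    intro n hn
    rw [mem_filter, hI, mem_filter] at hn
    rw [mem_filter]
    exact ⟨hn.1.1, hn.2⟩
  refine h2.trans ?_
  have h3 : ∑ s ∈ (Pz N).powerset, (∏ p ∈ s, 1 / ((p : ℝ) - 1)) * ((2 * N + 1) / ((∏ p ∈ s, p : ℕ) : ℝ) + 1) =
      (2 * N + 1) * ∏ p ∈ Pz N, (1 + 1 / ((p : ℝ) - 1) / p) + ∏ p ∈ Pz N, (1 + 1 / ((p : ℝ) - 1)) := by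
    rw [prod_one_add, prod_one_add, mul_sum, ← sum_add_distrib]
    apply sum_congr rfl
    intro s hs
    push_cast
    rw [prod_div_distrib (s := s) (f := fun p : ℕ => 1 / ((p : ℝ) - 1)) (g := fun p : ℕ => (p : ℝ))]
    ring
  rw [h3]
  have h4 : ∏ p ∈ Pz N, (1 + 1 / ((p : ℝ) - 1) / p) ≤ Real.exp 1 := by
    calc ∏ p ∈ Pz N, (1 + 1 / ((p : ℝ) - 1) / p) ≤ ∏ p ∈ Pz N, Real.exp (1 / ((p : ℝ) - 1) / p) := by
          apply Finset.prod_le_prod
          · intro p hp
            have := hpm p hp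
            positivity
          · intro p hp
            have := Real.add_one_le_exp (1 / ((p : ℝ) - 1) / p)
            linarith
      _ = Real.exp (∑ p ∈ Pz N, 1 / ((p : ℝ) - 1) / p) := by rw [Real.exp_sum]
      _ ≤ Real.exp 1 := Real.exp_le_exp.2 (sum_pred_le N)
  have h5 : ∏ p ∈ Pz N, (1 + 1 / ((p : ℝ) - 1)) ≤ 1 / c₁ * N := by
    have h6 : ∏ p ∈ Pz N, (1 + 1 / ((p : ℝ) - 1)) = (V N)⁻¹ := by
      unfold V
      rw [← prod_inv_distrib]
      apply prod_congr rfl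
      intro p hp
      have h3 := hpm p hp
      have h4 : (p : ℝ) ≠ 0 := by linarith
      have h5 : (1 : ℝ) - 1 / p = ((p : ℝ) - 1) / p := by field_simp
      rw [h5, inv_div]
      have h6 : (p : ℝ) - 1 ≠ 0 := h3.ne'
      field_simp
      ring
    have hVp : 0 < V N := by
      unfold V
      exact prod_pos fun p hp => one_sub_inv_pos (hPp p hp)
    rw [h6, inv_le_comm₀ hVp (by positivity)]
    have h7 := (hV N hN2).1
    have h8 : Real.log N ≤ N := (Real.log_le_sub_one_of_pos (by linarith)).trans (by linarith)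
    rw [mul_inv, one_div, inv_inv, ← div_eq_mul_inv, div_le_iff₀ (by linarith)]
    exact h7.trans (mul_le_mul_of_nonneg_left h8 hVp.le)
  have h6 : (2 * (N : ℝ) + 1) * ∏ p ∈ Pz N, (1 + 1 / ((p : ℝ) - 1) / p) ≤ (3 * N) * Real.exp 1 := by
    apply mul_le_mul (by linarith) h4 _ (by positivity)
    apply prod_nonneg
    intro p hp
    have := hpm p hp
    positivity
  calc (2 * (N : ℝ) + 1) * ∏ p ∈ Pz N, (1 + 1 / ((p : ℝ) - 1) / p) + ∏ p ∈ Pz N, (1 + 1 / ((p : ℝ) - 1)) ≤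
      (3 * N) * Real.exp 1 + 1 / c₁ * N := add_le_add h6 h5
    _ = _ := by ring

end Pool.Agent.K7.H61.FF
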